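import Mathlib

/-!
# A coefficient of the determinant of a pencil

For square matrices `A`, `W` over a commutative ring `R` we consider the determinant of
`z W + t (z - A)`, a polynomial in `t` with coefficients in `R[z]`.  If `W` is diagonal, with the
nonzero entries in the columns of `O`, then its lowest coefficient is the product of the nonzero
entries of `W` and of the characteristic polynomial of the matrix `A` with the columns in `O`
replaced by `0`.
-/

set_option autoImplicit false
set_option linter.unusedSectionVars false
set_option linter.unusedSimpArgs false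
set_option linter.unusedTactic false

namespace Pool.Agent.U865.SV

open Polynomial Matrix

noncomputable section

variable {ι : Type*} [Fintype ι] [DecidableEq ι] {R S : Type*} [CommRing R] [CommRing S]

/-- the embedding of the coefficients -/
def gam (R : Type*) [CommRing R] : R →+* R[X][X] := C.comp C

/-- the pencil `z W + t (z - A)` -/
def pencil (A W : Matrix ι ι R) : Matrix ι ι R[X][X] :=
  (C (X : R[X]) : R[X][X]) • W.map (gam R) +
    (X : R[X][X]) • ((C (X : R[X]) : R[X][X]) • (1 : Matrix ι ι R[X][X]) - A.map (gam R))

theorem pencil_map (φ : R →+* S) (A W : Matrix ι ι R) :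
    (pencil A W).map (mapRingHom (mapRingHom φ)) = pencil (A.map φ) (W.map φ) := by
  ext1 i j
  simp only [pencil, Matrix.map_apply, Matrix.add_apply, Matrix.smul_apply, Matrix.sub_apply,
    smul_eq_mul, gam, RingHom.comp_apply, map_add, map_mul, map_sub, coe_mapRingHom,
    Polynomial.map_C, Polynomial.map_X]
  congr 2
  by_cases h : i = j
  · subst h; simp
  · simp [Matrix.one_apply_ne h]

theorem pencil_conj (A W Q Q' : Matrix ι ι R) (h : Q' * Q = 1) :
    (pencil (Q' * A * Q) (Q' * W * Q)).det = (pencil A W).det := by
  have h1 : Q'.map (gam R) * Q.map (gam R) = 1 := by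
    rw [← Matrix.map_mul, h, Matrix.map_one _ (map_zero _) (map_one _)]
  have h2 : pencil (Q' * A * Q) (Q' * W * Q) = Q'.map (gam R) * pencil A W * Q.map (gam R) := by
    unfold pencil
    rw [Matrix.map_mul, Matrix.map_mul, Matrix.map_mul, Matrix.map_mul, Matrix.mul_add,
      Matrix.add_mul, Matrix.mul_smul, Matrix.mul_smul, Matrix.smul_mul, Matrix.smul_mul,
      Matrix.mul_sub, Matrix.sub_mul, Matrix.mul_smul, Matrix.smul_mul, Matrix.mul_one, h1]
  rw [h2, Matrix.det_mul, Matrix.det_mul]
  have h3 : (Q'.map (gam R)).det * (Q.map (gam R)).det = 1 := by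
    rw [← Matrix.det_mul, h1, Matrix.det_one]
  calc (Q'.map (gam R)).det * (pencil A W).det * (Q.map (gam R)).det
      = (pencil A W).det * ((Q'.map (gam R)).det * (Q.map (gam R)).det) := by ring
    _ = (pencil A W).det := by rw [h3, mul_one]

/-- the indicator of the complement -/
def ind (R : Type*) [CommRing R] (O : Finset ι) : ι → R := fun j => if j ∈ O then 0 else 1

theorem pencil_coeff (M : Matrix ι ι R) (w : ι → R) (O : Finset ι) (hw : ∀ j, j ∉ O → w j = 0) :
    (pencil M (diagonal w)).det.coeff (Oᶜ.card) =
      C (∏ j ∈ O, w j) * (M * diagonal (ind R O)).charpoly := by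
  let v : ι → R[X][X] := fun j => if j ∈ O then 1 else X
  let N : Matrix ι ι R[X][X] := fun i j => if j ∈ O then pencil M (diagonal w) i j else
    ((C (X : R[X]) : R[X][X]) • (1 : Matrix ι ι R[X][X]) - M.map (gam R)) i j
  have h1 : pencil M (diagonal w) = N * diagonal v := by
    ext1 i j
    rw [Matrix.mul_diagonal]
    by_cases hj : j ∈ O
    · simp only [N, v, if_pos hj, mul_one]
    · simp only [N, v, if_neg hj]
      have h2 : diagonal w i j = 0 := by
        by_cases hij : i = j
        · subst hij; simp [hw i hj]
        · exact Matrix.diagonal_apply_ne _ hij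
      simp only [pencil, Matrix.add_apply, Matrix.smul_apply, Matrix.map_apply, h2, map_zero,
        smul_zero, zero_add, smul_eq_mul]
      ring
  have h2 : ∏ j, v j = X ^ Oᶜ.card := by
    simp only [v]
    rw [Finset.prod_ite, Finset.prod_const_one, one_mul, Finset.prod_const]
    congr 2
    ext j
    simp
  rw [h1, Matrix.det_mul, Matrix.det_diagonal, h2]
  have h3 := Polynomial.coeff_mul_X_pow N.det Oᶜ.card 0
  rw [zero_add] at h3
  rw [h3]
  have h4 : N.det.coeff 0 = (constantCoeff.mapMatrix N).det := by
    rw [← RingHom.map_det]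
    rfl
  have cc : ∀ p : R[X], constantCoeff (C p : R[X][X]) = p := fun p => coeff_C_zero
  have cX : constantCoeff (X : R[X][X]) = 0 := coeff_X_zero
  have h5 : (constantCoeff.mapMatrix N) = charmatrix (M * diagonal (ind R O)) *
      diagonal (fun j => if j ∈ O then C (w j) else 1) := by
    ext1 i j
    rw [Matrix.mul_diagonal, charmatrix_apply, Matrix.mul_diagonal, RingHom.mapMatrix_apply,
      Matrix.map_apply]
    by_cases hj : j ∈ O
    · simp only [N, if_pos hj, pencil, ind, mul_zero, map_zero, sub_zero, Matrix.add_apply,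
        Matrix.smul_apply, Matrix.map_apply, smul_eq_mul, map_add, map_mul, cc, cX,
        gam, RingHom.comp_apply, zero_mul, add_zero]
      by_cases hij : i = j
      · subst hij; simp
      · simp [Matrix.diagonal_apply_ne _ hij]
    · simp only [N, if_neg hj, ind, mul_one, Matrix.sub_apply, Matrix.smul_apply,
        Matrix.map_apply, smul_eq_mul, map_sub, map_mul, cc, gam,
        RingHom.comp_apply]
      by_cases hij : i = j
      · subst hij; simp
      · simp [Matrix.diagonal_apply_ne _ hij, Matrix.one_apply_ne hij]
  rw [h4, h5, Matrix.det_mul, Matrix.det_diagonal, Matrix.charpoly, mul_comm]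
  congr 1
  rw [Finset.prod_ite_mem, Finset.univ_inter, map_prod]

/-- the coefficient is integral -/
theorem integral_coeff (φ : R →+* S) (A W : Matrix ι ι R) (Q Q' : Matrix ι ι S) (h : Q' * Q = 1)
    (w : ι → S) (hW : Q' * W.map φ * Q = diagonal w) (O : Finset ι)
    (hw : ∀ j, j ∉ O → w j = 0) :
    ∃ G : R[X], G.map φ =
      C (∏ j ∈ O, w j) * ((Q' * A.map φ * Q) * diagonal (ind S O)).charpoly := by
  refine ⟨(pencil A W).det.coeff (Oᶜ.card), ?_⟩
  rw [← pencil_coeff _ w O hw, ← hW, pencil_conj _ _ _ _ h, ← pencil_map]
  have h1 : ((pencil A W).map (mapRingHom (mapRingHom φ))).det =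
      mapRingHom (mapRingHom φ) (pencil A W).det := by
    rw [RingHom.map_det]
    rfl
  rw [h1, coe_mapRingHom, coeff_map, coe_mapRingHom]

end

end Pool.Agent.U865.SV
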