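import Mathlib
import Pool.Agent.H261R2.CM.D

/-!
# Means over the circle: the logarithm of a maximum, and a change of the order of integration
-/

set_option autoImplicit false

namespace Pool.Agent.U865.SV

open MeasureTheory Polynomial Set
open Pool.Agent.H261R2.CM (ez D_norm_ez D_circleAverage D_continuous_ez D_ez_eq)

noncomputable section

/-- the normalised measure on the parameter interval -/
def mu : Measure ℝ := volume.restrict (Ioc (0:ℝ) 1)

instance : IsProbabilityMeasure mu := ⟨by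
  unfold mu
  rw [Measure.restrict_apply_univ, Real.volume_Ioc]
  norm_num⟩

theorem avg_eq (f : ℂ → ℝ) : Real.circleAverage f 0 1 = ∫ t, f (ez t) ∂mu := by
  rw [D_circleAverage, intervalIntegral.integral_of_le zero_le_one]
  rfl

theorem integrable_log_max {X : Type*} [MeasurableSpace X] {ν : Measure X} [IsFiniteMeasure ν]
    {φ ψ : X → ℝ} (hφ : AEStronglyMeasurable φ ν) (hψ : AEStronglyMeasurable ψ ν) {C : ℝ}
    (hφC : ∀ x, φ x ≤ C) (hψC : ∀ x, ψ x ≤ C) (hpos : ∀ᵐ x ∂ν, 0 < ψ x)
    (hint : Integrable (fun x => Real.log (ψ x)) ν) :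
    Integrable (fun x => Real.log (max (φ x) (ψ x))) ν := by
  have hm : AEStronglyMeasurable (fun x => Real.log (max (φ x) (ψ x))) ν :=
    (Real.measurable_log.comp_aemeasurable
      (hφ.aemeasurable.max hψ.aemeasurable)).aestronglyMeasurable
  refine Integrable.mono' (g := fun x => |Real.log (ψ x)| + Real.log (max C 1))
    (hint.abs.add (integrable_const _)) hm ?_
  filter_upwards [hpos] with x hx
  have h1 : 0 ≤ Real.log (max C 1) := Real.log_nonneg (le_max_right _ _)
  have h2 : Real.log (ψ x) ≤ Real.log (max (φ x) (ψ x)) := Real.log_le_log hx (le_max_right _ _)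
  have h3 : Real.log (max (φ x) (ψ x)) ≤ Real.log (max C 1) :=
    Real.log_le_log (lt_of_lt_of_le hx (le_max_right _ _))
      ((max_le (hφC x) (hψC x)).trans (le_max_left _ _))
  rw [Real.norm_eq_abs, abs_le]
  have h4 := neg_abs_le (Real.log (ψ x))
  constructor
  · linarith
  · linarith [abs_nonneg (Real.log (ψ x))]

/-- the mean of `log ‖a + ζ b‖` over the unit circle -/
theorem avg_affine (a b : ℂ) (h : a ≠ 0 ∨ b ≠ 0) :
    ∫ t, Real.log ‖a + ez t * b‖ ∂mu = Real.log (max ‖a‖ ‖b‖) := by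
  have h1 := avg_eq (fun z => Real.log ‖a + z * b‖)
  rw [← h1]
  by_cases hb : b = 0
  · subst hb
    have ha : a ≠ 0 := by simpa using h
    simp only [mul_zero, add_zero, norm_zero, norm_nonneg, sup_of_le_left]
    rw [Real.circleAverage_const]
  · have h2 := logMahlerMeasure_C_mul_X_add_C hb a
    rw [logMahlerMeasure_def] at h2
    have h3 : (fun z : ℂ => Real.log ‖a + z * b‖) =
        fun x => Real.log ‖eval x (C b * X + C a)‖ := by
      funext z
      simp only [eval_add, eval_mul, eval_C, eval_X]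
      congr 2
      ring
    rw [h3, h2]
    have hb' : 0 < ‖b‖ := norm_pos_iff.mpr hb
    have hpl : Real.posLog ‖b⁻¹ * a‖ = max 0 (Real.log ‖b⁻¹ * a‖) := rfl
    rw [hpl, norm_mul, norm_inv]
    rcases le_total ‖a‖ ‖b‖ with hab | hab
    · rw [max_eq_right hab]
      have h4 : Real.log (‖b‖⁻¹ * ‖a‖) ≤ 0 := by
        apply Real.log_nonpos (by positivity)
        rw [inv_mul_le_iff₀ hb', mul_one]
        exact hab
      rw [max_eq_left h4, add_zero]
    · rw [max_eq_left hab]
      have ha' : 0 < ‖a‖ := lt_of_lt_of_le hb' hab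
      have h4 : 0 ≤ Real.log (‖b‖⁻¹ * ‖a‖) := by
        apply Real.log_nonneg
        rw [le_inv_mul_iff₀ hb', mul_one]
        exact hab
      rw [max_eq_right h4, Real.log_mul (by positivity) (by positivity), Real.log_inv]
      ring

theorem poly_integrable (P : ℂ[X]) : Integrable (fun t => Real.log ‖P.eval (ez t)‖) mu := by
  have h := intervalIntegrable_mahlerMeasure P
  have h2 := h.comp_mul_left (c := 2 * Real.pi)
  have hpi : (2 * Real.pi : ℝ) ≠ 0 := by positivity
  rw [zero_div, div_self hpi] at h2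
  have h3 : (fun t => Real.log ‖P.eval (ez t)‖) =
      fun t => Real.log ‖P.eval (circleMap 0 1 (2 * Real.pi * t))‖ := by
    ext t
    simp only [D_ez_eq]
  rw [h3]
  exact (intervalIntegrable_iff_integrableOn_Ioc_of_le zero_le_one).mp h2

theorem ez_eq_countable (z : ℂ) : {t : ℝ | ez t = z}.Countable := by
  by_cases hz : ∃ s : ℝ, ez s = z
  · obtain ⟨s, rfl⟩ := hz
    refine (Set.countable_range fun n : ℤ => s + n).mono ?_
    intro t ht
    simp only [Set.mem_ofPred_eq, ez] at ht
    rw [Complex.exp_eq_exp_iff_exists_int] at ht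
    obtain ⟨n, hn⟩ := ht
    refine ⟨n, ?_⟩
    have hne : (2 * (Real.pi : ℂ) * Complex.I) ≠ 0 := Complex.two_pi_I_ne_zero
    have h3 : (t : ℂ) = s + n := by
      apply mul_left_cancel₀ hne
      rw [hn]
      ring
    simp only []
    exact_mod_cast h3.symm
  · have : {t : ℝ | ez t = z} = ∅ := by
      ext t
      simp only [Set.mem_ofPred_eq, Set.mem_empty_iff_false, iff_false]
      exact fun h => hz ⟨t, h⟩
    rw [this]
    exact Set.countable_empty

theorem poly_ae_ne (P : ℂ[X]) (hP : P ≠ 0) : ∀ᵐ t ∂mu, P.eval (ez t) ≠ 0 := by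
  have h1 : {t : ℝ | P.eval (ez t) = 0} ⊆ ⋃ z ∈ (P.roots.toFinset : Set ℂ), {t : ℝ | ez t = z} := by
    intro t ht
    simp only [Set.mem_iUnion, Set.mem_ofPred_eq]
    refine ⟨ez t, ?_, rfl⟩
    rw [Finset.mem_coe, Multiset.mem_toFinset, mem_roots hP]
    exact ht
  have h3 : {t : ℝ | P.eval (ez t) = 0}.Countable :=
    ((Set.Countable.biUnion (Finset.countable_toSet _) fun z _ => ez_eq_countable z)).mono h1
  have h4 : ∀ᵐ t ∂(volume : Measure ℝ), P.eval (ez t) ≠ 0 := by
    rw [ae_iff]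
    simpa using h3.measure_zero volume
  exact ae_restrict_of_ae h4

theorem poly_integral (P : ℂ[X]) : ∫ t, Real.log ‖P.eval (ez t)‖ ∂mu = P.logMahlerMeasure := by
  rw [logMahlerMeasure_def, avg_eq]

/-- a family of monic polynomials depending continuously on a parameter: the logarithm of the
modulus is integrable on the torus -/
theorem integrable_torus (D : ℂ → ℂ → ℂ) (hD : Continuous fun p : ℂ × ℂ => D p.1 p.2)
    (H : ℂ → ℂ[X]) (hH : ∀ x, (H x).Monic) (hDH : ∀ x z, D x z = (H x).eval z) :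
    Integrable (fun p : ℝ × ℝ => Real.log ‖D (ez p.1) (ez p.2)‖) (mu.prod mu) := by
  have hc : Continuous fun p : ℝ × ℝ => ‖D (ez p.1) (ez p.2)‖ :=
    (hD.comp ((D_continuous_ez.comp continuous_fst).prodMk
      (D_continuous_ez.comp continuous_snd))).norm
  have hms : StronglyMeasurable fun p : ℝ × ℝ => Real.log ‖D (ez p.1) (ez p.2)‖ :=
    (Real.measurable_log.comp hc.measurable).stronglyMeasurable
  obtain ⟨C, hC⟩ : ∃ C : ℝ, ∀ p : ℝ × ℝ, ‖D (ez p.1) (ez p.2)‖ ≤ C := by
    obtain ⟨C, hC⟩ := ((isCompact_closedBall (0:ℂ) 1).prod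
      (isCompact_closedBall (0:ℂ) 1)).exists_bound_of_continuousOn hD.continuousOn
    exact ⟨C, fun p => hC (ez p.1, ez p.2) (by simp [D_norm_ez])⟩
  rw [integrable_prod_iff hms.aestronglyMeasurable]
  refine ⟨Filter.Eventually.of_forall fun x => ?_, ?_⟩
  · have := poly_integrable (H (ez x))
    simpa only [hDH] using this
  · refine Integrable.mono' (g := fun _ => 2 * Real.log (max C 1)) (integrable_const _)
      (hms.norm.integral_prod_right).aestronglyMeasurable ?_
    refine Filter.Eventually.of_forall fun x => ?_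
    have hi : Integrable (fun t => Real.log ‖D (ez x) (ez t)‖) mu := by
      have := poly_integrable (H (ez x))
      simpa only [hDH] using this
    have h0 : 0 ≤ ∫ t, Real.log ‖D (ez x) (ez t)‖ ∂mu := by
      have h1 := poly_integral (H (ez x))
      simp only [← hDH] at h1
      rw [h1, logMahlerMeasure_eq_log_MahlerMeasure]
      refine Real.log_nonneg ?_
      have h5 := (H (ez x)).leadingCoeff_le_mahlerMeasure
      rw [(hH (ez x)).leadingCoeff, norm_one] at h5
      exact h5
    have hL : 0 ≤ Real.log (max C 1) := Real.log_nonneg (le_max_right _ _)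
    have hpt : ∀ t, ‖Real.log ‖D (ez x) (ez t)‖‖ ≤
        2 * Real.log (max C 1) - Real.log ‖D (ez x) (ez t)‖ := by
      intro t
      have hle : Real.log ‖D (ez x) (ez t)‖ ≤ Real.log (max C 1) := by
        rcases eq_or_lt_of_le (norm_nonneg (D (ez x) (ez t))) with h | h
        · rw [← h, Real.log_zero]; exact hL
        · exact Real.log_le_log h ((hC (x, t)).trans (le_max_left _ _))
      rw [Real.norm_eq_abs, abs_le]
      constructor <;> linarith
    rw [Real.norm_eq_abs, abs_of_nonneg (integral_nonneg fun t => norm_nonneg _)]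
    refine (integral_mono hi.norm ((integrable_const _).sub hi) hpt).trans ?_
    simp only [Pi.sub_apply]
    rw [integral_sub (integrable_const _) hi]
    simp only [integral_const, probReal_univ, one_smul]
    linarith

theorem ae_prod_ne (D : ℂ → ℂ → ℂ) (hD : Continuous fun p : ℂ × ℂ => D p.1 p.2)
    (H : ℂ → ℂ[X]) (hH : ∀ x, (H x).Monic) (hDH : ∀ x z, D x z = (H x).eval z) :
    ∀ᵐ p : ℝ × ℝ ∂(mu.prod mu), 0 < ‖D (ez p.1) (ez p.2)‖ := by
  have hc : Continuous fun p : ℝ × ℝ => ‖D (ez p.1) (ez p.2)‖ :=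
    (hD.comp ((D_continuous_ez.comp continuous_fst).prodMk
      (D_continuous_ez.comp continuous_snd))).norm
  have hms : MeasurableSet {p : ℝ × ℝ | 0 < ‖D (ez p.1) (ez p.2)‖} :=
    measurableSet_lt measurable_const hc.measurable
  refine (Measure.ae_prod_mem_iff_ae_ae_mem hms).mpr ?_
  refine Filter.Eventually.of_forall fun x => ?_
  filter_upwards [poly_ae_ne (H (ez x)) (hH _).ne_zero] with t ht
  simpa [hDH] using ht

/-- the change of the order of integration -/
theorem step (s : ℝ) (hs : 0 < s) (a₁ b₁ a₀ b₀ : ℂ → ℂ) (ha₁ : Continuous a₁)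
    (hb₁ : Continuous b₁) (ha₀ : Continuous a₀) (hb₀ : Continuous b₀)
    (H : ℂ → ℂ[X]) (hH : ∀ x, (H x).Monic) (hDH : ∀ x z, a₀ z + x * b₀ z = (H x).eval z)
    (K : ℝ) (hK : ∀ x : ℂ, ‖x‖ = 1 → ∫ t, Real.log (max ‖a₁ (ez t) + x / s * b₁ (ez t)‖
      ‖a₀ (ez t) + x / s * b₀ (ez t)‖) ∂mu ≤ K) :
    ∫ t, Real.log (max ‖a₁ (ez t) + b₁ (ez t)‖ ‖a₀ (ez t)‖) ∂mu ≤ Real.log (1 + s) + K := by
  have hsC : (s : ℂ) ≠ 0 := by exact_mod_cast hs.ne'
  -- the functions on the torus
  have hP : Continuous fun p : ℂ × ℂ => a₁ p.2 + p.1 / s * b₁ p.2 := by fun_prop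
  have hQ : Continuous fun p : ℂ × ℂ => a₀ p.2 + p.1 / s * b₀ p.2 := by fun_prop
  have hQi := integrable_torus (fun x z => a₀ z + x / s * b₀ z) hQ (fun x => H (x / s))
    (fun x => hH _) (fun x z => hDH _ _)
  have hQp := ae_prod_ne (fun x z => a₀ z + x / s * b₀ z) hQ (fun x => H (x / s))
    (fun x => hH _) (fun x z => hDH _ _)
  have hce : Continuous fun p : ℝ × ℝ => (ez p.1, ez p.2) :=
    (D_continuous_ez.comp continuous_fst).prodMk (D_continuous_ez.comp continuous_snd)
  obtain ⟨Cb, hCb⟩ : ∃ Cb : ℝ, ∀ p : ℝ × ℝ,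
      ‖a₁ (ez p.2) + ez p.1 / s * b₁ (ez p.2)‖ ≤ Cb ∧
      ‖a₀ (ez p.2) + ez p.1 / s * b₀ (ez p.2)‖ ≤ Cb := by
    obtain ⟨C1, hC1⟩ := ((isCompact_closedBall (0:ℂ) 1).prod
      (isCompact_closedBall (0:ℂ) 1)).exists_bound_of_continuousOn hP.continuousOn
    obtain ⟨C2, hC2⟩ := ((isCompact_closedBall (0:ℂ) 1).prod
      (isCompact_closedBall (0:ℂ) 1)).exists_bound_of_continuousOn hQ.continuousOn
    exact ⟨max C1 C2, fun p => ⟨(hC1 (ez p.1, ez p.2) (by simp [D_norm_ez])).trans
      (le_max_left _ _), (hC2 (ez p.1, ez p.2) (by simp [D_norm_ez])).trans (le_max_right _ _)⟩⟩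
  have hint : Integrable (fun p : ℝ × ℝ => Real.log (max
      ‖a₁ (ez p.2) + ez p.1 / s * b₁ (ez p.2)‖ ‖a₀ (ez p.2) + ez p.1 / s * b₀ (ez p.2)‖))
      (mu.prod mu) :=
    integrable_log_max (hP.comp hce).norm.stronglyMeasurable.aestronglyMeasurable
      (hQ.comp hce).norm.stronglyMeasurable.aestronglyMeasurable
      (fun p => (hCb p).1) (fun p => (hCb p).2) hQp hQi
  -- the pointwise inequality
  have hne : ∀ᵐ t ∂mu, a₀ (ez t) ≠ 0 := by
    filter_upwards [poly_ae_ne (H 0) (hH 0).ne_zero] with t ht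
    rw [← hDH 0 (ez t), zero_mul, add_zero] at ht
    exact ht
  have hi0 : Integrable (fun t => Real.log ‖a₀ (ez t)‖) mu := by
    have h := poly_integrable (H 0)
    have h2 : (fun t => Real.log ‖(H 0).eval (ez t)‖) = fun t => Real.log ‖a₀ (ez t)‖ := by
      funext t
      rw [← hDH 0 (ez t), zero_mul, add_zero]
    rwa [h2] at h
  obtain ⟨C', hC'⟩ : ∃ Cb : ℝ, ∀ t : ℝ,
      ‖a₁ (ez t) + b₁ (ez t)‖ ≤ Cb ∧ ‖a₀ (ez t)‖ ≤ Cb := by
    obtain ⟨C1, hC1⟩ := (isCompact_closedBall (0:ℂ) 1).exists_bound_of_continuousOn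
      (ha₁.add hb₁).continuousOn
    obtain ⟨C2, hC2⟩ := (isCompact_closedBall (0:ℂ) 1).exists_bound_of_continuousOn
      ha₀.continuousOn
    exact ⟨max C1 C2, fun p => ⟨(hC1 (ez p) (by simp [D_norm_ez])).trans
      (le_max_left _ _), (hC2 (ez p) (by simp [D_norm_ez])).trans (le_max_right _ _)⟩⟩
  have hiL : Integrable (fun t => Real.log (max ‖a₁ (ez t) + b₁ (ez t)‖ ‖a₀ (ez t)‖)) mu :=
    integrable_log_max
      ((ha₁.add hb₁).comp D_continuous_ez).norm.stronglyMeasurable.aestronglyMeasurable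
      (ha₀.comp D_continuous_ez).norm.stronglyMeasurable.aestronglyMeasurable
      (fun p => (hC' p).1) (fun p => (hC' p).2)
      (by filter_upwards [hne] with t ht; exact norm_pos_iff.mpr ht) hi0
  have hsl : 0 ≤ Real.log (1 + s) := Real.log_nonneg (by linarith)
  have hswap : ∫ y, ∫ x, Real.log (max
      ‖a₁ (ez y) + ez x / s * b₁ (ez y)‖ ‖a₀ (ez y) + ez x / s * b₀ (ez y)‖) ∂mu ∂mu
      = ∫ x, ∫ y, Real.log (max
      ‖a₁ (ez y) + ez x / s * b₁ (ez y)‖ ‖a₀ (ez y) + ez x / s * b₀ (ez y)‖) ∂mu ∂mu :=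
    (integral_integral_swap hint).symm
  have hiR : Integrable (fun y => ∫ x, Real.log (max
      ‖a₁ (ez y) + ez x / s * b₁ (ez y)‖ ‖a₀ (ez y) + ez x / s * b₀ (ez y)‖) ∂mu) mu :=
    hint.integral_prod_right
  have hfib : ∀ᵐ y ∂mu, Integrable (fun x => Real.log (max
      ‖a₁ (ez y) + ez x / s * b₁ (ez y)‖ ‖a₀ (ez y) + ez x / s * b₀ (ez y)‖)) mu :=
    hint.prod_left_ae
  have hpt : ∀ᵐ t ∂mu, Real.log (max ‖a₁ (ez t) + b₁ (ez t)‖ ‖a₀ (ez t)‖) ≤
      Real.log (1 + s) + ∫ x, Real.log (max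
      ‖a₁ (ez t) + ez x / s * b₁ (ez t)‖ ‖a₀ (ez t) + ez x / s * b₀ (ez t)‖) ∂mu := by
    filter_upwards [hne, hfib] with t ht hf
    generalize a₁ (ez t) = A at *
    generalize b₁ (ez t) = B at *
    generalize a₀ (ez t) = G at *
    generalize b₀ (ez t) = E at *
    have hE : ∀ x, ez x / s * E = ez x * (E / s) := fun x => by ring
    have hB : ∀ x, ez x / s * B = ez x * (B / s) := fun x => by ring
    simp only [hE, hB] at hf ⊢
    have haff : ∀ a b : ℂ, Integrable (fun x => Real.log ‖a + ez x * b‖) mu := by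
      intro a b
      have h := poly_integrable (C b * X + C a)
      have h2 : (fun t => Real.log ‖(C b * X + C a).eval (ez t)‖) =
          fun x => Real.log ‖a + ez x * b‖ := by
        funext x
        simp only [eval_add, eval_mul, eval_C, eval_X]
        congr 2
        ring
      rwa [h2] at h
    have h1 : Real.log (max ‖G‖ ‖E / s‖) ≤ ∫ x, Real.log (max
        ‖A + ez x * (B / s)‖ ‖G + ez x * (E / s)‖) ∂mu := by
      rw [← avg_affine G (E / s) (Or.inl ht)]
      refine integral_mono_ae (haff _ _) hf ?_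
      have h0 : (C (E / s) * X + C G : ℂ[X]) ≠ 0 := by
        intro h0
        have := congrArg (fun p : ℂ[X] => p.coeff 0) h0
        simp at this
        exact ht this
      filter_upwards [poly_ae_ne _ h0] with x hx
      refine Real.log_le_log (norm_pos_iff.mpr ?_) (le_max_right _ _)
      intro h3
      apply hx
      simp only [eval_add, eval_mul, eval_C, eval_X]
      rw [← h3]
      ring
    have hG : 0 < ‖G‖ := norm_pos_iff.mpr ht
    by_cases hAB : A = 0 ∧ B = 0
    · obtain ⟨rfl, rfl⟩ := hAB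
      have h2 : Real.log (max ‖(0:ℂ) + 0‖ ‖G‖) ≤ Real.log (max ‖G‖ ‖E / s‖) := by
        rw [add_zero, norm_zero, max_eq_right hG.le]
        exact Real.log_le_log hG (le_max_left _ _)
      linarith
    · have hAB' : A ≠ 0 ∨ B / s ≠ 0 := by
        by_contra hcon
        push Not at hcon
        apply hAB
        refine ⟨hcon.1, ?_⟩
        have := hcon.2
        rw [div_eq_zero_iff] at this
        exact this.resolve_right hsC
      have h2 : Real.log (max ‖A‖ ‖B / s‖) ≤ ∫ x, Real.log (max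
          ‖A + ez x * (B / s)‖ ‖G + ez x * (E / s)‖) ∂mu := by
        rw [← avg_affine A (B / s) hAB']
        refine integral_mono_ae (haff _ _) hf ?_
        have h0 : (C (B / s) * X + C A : ℂ[X]) ≠ 0 := by
          intro h0
          have h1 := congrArg (fun p : ℂ[X] => p.coeff 0) h0
          have h2 := congrArg (fun p : ℂ[X] => p.coeff 1) h0
          simp only [coeff_add, coeff_C_mul, coeff_X_zero, mul_zero, coeff_C_zero, zero_add,
            coeff_zero, coeff_X_one, mul_one, coeff_C_succ, add_zero] at h1 h2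
          rcases hAB' with h | h
          · exact h h1
          · exact h h2
        filter_upwards [poly_ae_ne _ h0] with x hx
        refine Real.log_le_log (norm_pos_iff.mpr ?_) (le_max_left _ _)
        intro h3
        apply hx
        simp only [eval_add, eval_mul, eval_C, eval_X]
        rw [← h3]
        ring
      -- now the elementary inequality
      have hm : 0 < max (max ‖A‖ ‖B / s‖) ‖G‖ := lt_of_lt_of_le hG (le_max_right _ _)
      have h3 : Real.log (max ‖A + B‖ ‖G‖) ≤
          Real.log ((1 + s) * max (max ‖A‖ ‖B / s‖) ‖G‖) := by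
        refine Real.log_le_log (lt_of_lt_of_le hG (le_max_right _ _)) (max_le ?_ ?_)
        · have hA1 : ‖A‖ ≤ max (max ‖A‖ ‖B / s‖) ‖G‖ :=
            (le_max_left _ _).trans (le_max_left _ _)
          have hB1 : ‖B / s‖ ≤ max (max ‖A‖ ‖B / s‖) ‖G‖ :=
            (le_max_right _ _).trans (le_max_left _ _)
          have hB2 : ‖B‖ = s * ‖B / s‖ := by
            rw [norm_div, Complex.norm_real, Real.norm_eq_abs, abs_of_pos hs]
            field_simp
          calc ‖A + B‖ ≤ ‖A‖ + ‖B‖ := norm_add_le _ _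
            _ = ‖A‖ + s * ‖B / s‖ := by rw [← hB2]
            _ ≤ (1 + s) * max (max ‖A‖ ‖B / s‖) ‖G‖ := by nlinarith
        · have : ‖G‖ ≤ max (max ‖A‖ ‖B / s‖) ‖G‖ := le_max_right _ _
          nlinarith
      rw [Real.log_mul (by positivity) hm.ne'] at h3
      have h4 : Real.log (max (max ‖A‖ ‖B / s‖) ‖G‖) ≤ ∫ x, Real.log (max
          ‖A + ez x * (B / s)‖ ‖G + ez x * (E / s)‖) ∂mu := by
        rcases le_total (max ‖A‖ ‖B / s‖) ‖G‖ with h | h
        · rw [max_eq_right h]
          exact (Real.log_le_log hG (le_max_left _ _)).trans h1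
        · rw [max_eq_left h]
          exact h2
      linarith
  calc ∫ t, Real.log (max ‖a₁ (ez t) + b₁ (ez t)‖ ‖a₀ (ez t)‖) ∂mu
      ≤ ∫ t, (Real.log (1 + s) + ∫ x, Real.log (max
      ‖a₁ (ez t) + ez x / s * b₁ (ez t)‖ ‖a₀ (ez t) + ez x / s * b₀ (ez t)‖) ∂mu) ∂mu :=
        integral_mono_ae hiL ((integrable_const _).add hiR) hpt
    _ = Real.log (1 + s) + ∫ t, (∫ x, Real.log (max
      ‖a₁ (ez t) + ez x / s * b₁ (ez t)‖ ‖a₀ (ez t) + ez x / s * b₀ (ez t)‖) ∂mu) ∂mu := by
        rw [integral_add (integrable_const _) hiR]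
        simp only [integral_const, probReal_univ, one_smul]
    _ ≤ Real.log (1 + s) + K := by
        rw [hswap]
        gcongr
        refine (integral_mono (g := fun _ => K) ?_ (integrable_const _) ?_).trans ?_
        · exact hint.integral_prod_left
        · intro x
          exact hK (ez x) (D_norm_ez x)
        · simp only [integral_const, probReal_univ, one_smul]
          exact le_rfl

end

end Pool.Agent.U865.SV
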