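import Mathlib
import Pool.Agent.U865.SV.Swap
import Pool.Agent.U865.SV.Alg

/-!
# The mean of the logarithm of the larger one of two characteristic polynomials
-/

set_option autoImplicit false
set_option linter.unusedSectionVars false

namespace Pool.Agent.U865.SV

open MeasureTheory Polynomial Matrix
open Pool.Agent.H261R2.CM (ez D_norm_ez D_circleAverage D_continuous_ez D_ez_eq)

noncomputable section

variable {ι : Type*} [Fintype ι] [DecidableEq ι]

/-- the characteristic polynomial of `M diag(d)` as a function -/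
def DD (M : Matrix ι ι ℂ) (d : ι → ℂ) (z : ℂ) : ℂ := (M * diagonal d).charpoly.eval z

theorem DD_continuous (M : Matrix ι ι ℂ) (d : ι → ℂ) : Continuous (DD M d) :=
  (M * diagonal d).charpoly.continuous

theorem DD_update (M : Matrix ι ι ℂ) (d : ι → ℂ) (j : ι) (x z : ℂ) :
    DD M (Function.update d j x) z = DD M (Function.update d j 0) z +
      x * (DD M (Function.update d j 1) z - DD M (Function.update d j 0) z) := by
  have key : ∀ y : ℂ, DD M (Function.update d j y) z =
      (updateCol (Matrix.scalar ι z - M * diagonal d) j (fun i => Matrix.scalar ι z i j)).det +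
      y * (updateCol (Matrix.scalar ι z - M * diagonal d) j (fun i => - M i j)).det := by
    intro y
    unfold DD
    rw [eval_charpoly, ← det_updateCol_smul, ← det_updateCol_add]
    congr 1
    ext i k
    by_cases hk : k = j
    · subst hk
      rw [updateCol_self]
      simp only [Matrix.sub_apply, Matrix.mul_diagonal, Function.update_self, Pi.add_apply,
        Pi.smul_apply, smul_eq_mul]
      ring
    · rw [updateCol_ne hk]
      simp only [Matrix.sub_apply, Matrix.mul_diagonal, Function.update_of_ne hk]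
  rw [key x, key 0, key 1]
  ring

theorem roots_le_one (M : Matrix ι ι ℂ) (μ : ι → ℝ)
    (hM : Mᴴ * M = diagonal (fun j => (μ j : ℂ))) (d : ι → ℂ) (hd : ∀ j, ‖d j‖ ^ 2 * μ j ≤ 1)
    (r : ℂ) (hr : (M * diagonal d).charpoly.eval r = 0) : ‖r‖ ≤ 1 := by
  rw [eval_charpoly] at hr
  obtain ⟨v, hv0, hv⟩ := Matrix.exists_mulVec_eq_zero_iff.mpr hr
  have h1 : (M * diagonal d) *ᵥ v = r • v := by
    rw [Matrix.sub_mulVec, sub_eq_zero] at hv
    rw [← hv]
    ext i
    simp [Matrix.scalar_apply, Matrix.mulVec_diagonal]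
  have h2 : star ((M * diagonal d) *ᵥ v) ⬝ᵥ ((M * diagonal d) *ᵥ v) =
      ∑ j, ((‖d j‖ ^ 2 * μ j * ‖v j‖ ^ 2 : ℝ) : ℂ) := by
    rw [Matrix.star_mulVec, ← Matrix.dotProduct_mulVec, Matrix.mulVec_mulVec,
      Matrix.conjTranspose_mul, Matrix.diagonal_conjTranspose]
    have h3 : diagonal (star d) * Mᴴ * (M * diagonal d) =
        diagonal (fun j => ((‖d j‖ ^ 2 * μ j : ℝ) : ℂ)) := by
      calc diagonal (star d) * Mᴴ * (M * diagonal d)
          = diagonal (star d) * (Mᴴ * M) * diagonal d := by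
            simp only [Matrix.mul_assoc]
        _ = _ := by
            rw [hM, Matrix.diagonal_mul_diagonal, Matrix.diagonal_mul_diagonal]
            congr 1
            ext j
            simp only [Pi.star_apply, RCLike.star_def]
            have h4 : (starRingEnd ℂ) (d j) * d j = ((‖d j‖ ^ 2 : ℝ) : ℂ) := by
              rw [mul_comm, Complex.mul_conj, Complex.normSq_eq_norm_sq]
            rw [Complex.ofReal_mul, ← h4]
            ring
    rw [h3, dotProduct]
    refine Finset.sum_congr rfl fun j _ => ?_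
    rw [Matrix.mulVec_diagonal]
    simp only [Pi.star_apply, RCLike.star_def]
    have h4 : (starRingEnd ℂ) (v j) * v j = ((‖v j‖ ^ 2 : ℝ) : ℂ) := by
      rw [mul_comm, Complex.mul_conj, Complex.normSq_eq_norm_sq]
    rw [Complex.ofReal_mul (‖d j‖ ^ 2 * μ j), ← h4]
    ring
  have h5 : star (r • v) ⬝ᵥ (r • v) = ∑ j, ((‖r‖ ^ 2 * ‖v j‖ ^ 2 : ℝ) : ℂ) := by
    rw [dotProduct]
    refine Finset.sum_congr rfl fun j _ => ?_
    simp only [Pi.star_apply, Pi.smul_apply, smul_eq_mul, star_mul', RCLike.star_def]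
    have h4 : (starRingEnd ℂ) (v j) * v j = ((‖v j‖ ^ 2 : ℝ) : ℂ) := by
      rw [mul_comm, Complex.mul_conj, Complex.normSq_eq_norm_sq]
    have h6 : (starRingEnd ℂ) r * r = ((‖r‖ ^ 2 : ℝ) : ℂ) := by
      rw [mul_comm, Complex.mul_conj, Complex.normSq_eq_norm_sq]
    rw [Complex.ofReal_mul, ← h4, ← h6]
    ring
  rw [h1, h5] at h2
  have h7 : ∑ j, ‖r‖ ^ 2 * ‖v j‖ ^ 2 = ∑ j, ‖d j‖ ^ 2 * μ j * ‖v j‖ ^ 2 := by
    exact_mod_cast h2
  have h8 : ∑ j, ‖d j‖ ^ 2 * μ j * ‖v j‖ ^ 2 ≤ ∑ j, ‖v j‖ ^ 2 := by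
    refine Finset.sum_le_sum fun j _ => ?_
    exact mul_le_of_le_one_left (by positivity) (hd j)
  have h9 : 0 < ∑ j, ‖v j‖ ^ 2 := by
    obtain ⟨j, hj⟩ : ∃ j, v j ≠ 0 := by
      by_contra hcon
      push Not at hcon
      exact hv0 (funext hcon)
    refine Finset.sum_pos' (fun _ _ => by positivity) ⟨j, Finset.mem_univ _, ?_⟩
    have := norm_pos_iff.mpr hj
    positivity
  rw [← Finset.mul_sum] at h7
  have h10 : ‖r‖ ^ 2 ≤ 1 := by
    by_contra hcon
    push Not at hcon
    nlinarith
  exact (sq_le_one_iff₀ (norm_nonneg r)).mp h10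

theorem logMahler_zero {P : ℂ[X]} (hP : P.Monic) (h : ∀ r, P.eval r = 0 → ‖r‖ ≤ 1) :
    P.mahlerMeasure = 1 := by
  rw [mahlerMeasure_eq_leadingCoeff_mul_prod_roots, hP.leadingCoeff, norm_one, one_mul]
  refine Multiset.prod_eq_one fun x hx => ?_
  rw [Multiset.mem_map] at hx
  obtain ⟨r, hr, rfl⟩ := hx
  exact max_eq_left (h r ((mem_roots hP.ne_zero).mp hr))

/-- change the entries with index in `T` into `1` -/
def e1 (T : Finset ι) (d : ι → ℂ) : ι → ℂ := fun j => if j ∈ T then 1 else d j

/-- change the entries with index in `T` into `0` -/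
def e0 (T : Finset ι) (d : ι → ℂ) : ι → ℂ := fun j => if j ∈ T then 0 else d j

theorem e1_update (T : Finset ι) (d : ι → ℂ) (j : ι) (hj : j ∉ T) (x : ℂ) :
    e1 T (Function.update d j x) = Function.update (e1 T d) j x := by
  ext i
  by_cases hi : i = j
  · subst hi; simp [e1, hj]
  · simp [e1, Function.update_of_ne hi]

theorem e0_update (T : Finset ι) (d : ι → ℂ) (j : ι) (hj : j ∉ T) (x : ℂ) :
    e0 T (Function.update d j x) = Function.update (e0 T d) j x := by
  ext i
  by_cases hi : i = j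
  · subst hi; simp [e0, hj]
  · simp [e0, Function.update_of_ne hi]

theorem e1_insert (T : Finset ι) (d : ι → ℂ) (j : ι) :
    e1 (insert j T) d = Function.update (e1 T d) j 1 := by
  ext i
  by_cases hi : i = j
  · subst hi; simp [e1]
  · simp [e1, Function.update_of_ne hi, Finset.mem_insert, hi]

theorem e0_insert (T : Finset ι) (d : ι → ℂ) (j : ι) :
    e0 (insert j T) d = Function.update (e0 T d) j 0 := by
  ext i
  by_cases hi : i = j
  · subst hi; simp [e0]
  · simp [e0, Function.update_of_ne hi, Finset.mem_insert, hi]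

theorem height_bound (M : Matrix ι ι ℂ) (μ : ι → ℝ)
    (hM : Mᴴ * M = diagonal (fun j => (μ j : ℂ))) (O : Finset ι) (hO : ∀ j ∈ O, 0 < μ j)
    (hO' : ∀ j, j ∉ O → μ j ≤ 1) (T : Finset ι) (hT : T ⊆ O) :
    ∀ d : ι → ℂ, (∀ j ∈ O, ‖d j‖ = (Real.sqrt (μ j))⁻¹) → (∀ j, j ∉ O → d j = 1) →
      ∫ t, Real.log (max ‖DD M (e1 T d) (ez t)‖ ‖DD M (e0 T d) (ez t)‖) ∂mu ≤
        ∑ j ∈ T, Real.log (1 + Real.sqrt (μ j)) := by
  induction T using Finset.induction_on with
  | empty =>
    intro d h1 h2
    have h3 : e1 (∅ : Finset ι) d = d := by ext i; simp [e1]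
    have h4 : e0 (∅ : Finset ι) d = d := by ext i; simp [e0]
    rw [h3, h4, Finset.sum_empty]
    simp only [max_self]
    have h5 := poly_integral (M * diagonal d).charpoly
    have h6 : (M * diagonal d).charpoly.logMahlerMeasure = 0 := by
      rw [logMahlerMeasure_eq_log_MahlerMeasure, logMahler_zero (charpoly_monic _), Real.log_one]
      refine roots_le_one M μ hM d fun j => ?_
      by_cases hj : j ∈ O
      · rw [h1 j hj, inv_pow, Real.sq_sqrt (hO j hj).le, inv_mul_cancel₀ (hO j hj).ne']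
      · rw [h2 j hj, norm_one, one_pow, one_mul]
        exact hO' j hj
    rw [h6] at h5
    exact h5.le
  | insert j T hjT ih =>
    intro d h1 h2
    have hjO : j ∈ O := hT (Finset.mem_insert_self _ _)
    have hs : 0 < Real.sqrt (μ j) := Real.sqrt_pos.mpr (hO j hjO)
    rw [Finset.sum_insert hjT, e1_insert, e0_insert]
    have hst := step (Real.sqrt (μ j)) hs
      (DD M (Function.update (e1 T d) j 0))
      (fun z => DD M (Function.update (e1 T d) j 1) z - DD M (Function.update (e1 T d) j 0) z)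
      (DD M (Function.update (e0 T d) j 0))
      (fun z => DD M (Function.update (e0 T d) j 1) z - DD M (Function.update (e0 T d) j 0) z)
      (DD_continuous _ _) ((DD_continuous _ _).sub (DD_continuous _ _)) (DD_continuous _ _)
      ((DD_continuous _ _).sub (DD_continuous _ _))
      (fun x => (M * diagonal (Function.update (e0 T d) j x)).charpoly)
      (fun x => charpoly_monic _)
      (fun x z => (DD_update M (e0 T d) j x z).symm)
      (∑ j ∈ T, Real.log (1 + Real.sqrt (μ j))) ?_
    · simpa only [add_sub_cancel] using hst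
    · intro x hx
      have h3 := ih ((Finset.subset_insert _ _).trans hT)
        (Function.update d j (x / (Real.sqrt (μ j) : ℂ))) ?_ ?_
      · rw [e1_update _ _ _ hjT, e0_update _ _ _ hjT] at h3
        simpa only [DD_update M (e1 T d) j (x / (Real.sqrt (μ j) : ℂ)),
          DD_update M (e0 T d) j (x / (Real.sqrt (μ j) : ℂ))] using h3
      · intro i hi
        by_cases hij : i = j
        · subst hij
          rw [Function.update_self, norm_div, hx, Complex.norm_real, Real.norm_eq_abs,
            abs_of_pos hs, one_div]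
        · rw [Function.update_of_ne hij]
          exact h1 i hi
      · intro i hi
        have hij : i ≠ j := fun h => hi (h ▸ hjO)
        rw [Function.update_of_ne hij]
        exact h2 i hi

/-- the bound for the pair -/
theorem height_pair (M : Matrix ι ι ℂ) (μ : ι → ℝ)
    (hM : Mᴴ * M = diagonal (fun j => (μ j : ℂ))) (O : Finset ι) (hO : ∀ j ∈ O, 0 < μ j)
    (hO' : ∀ j, j ∉ O → μ j ≤ 1) :
    ∫ t, Real.log (max ‖M.charpoly.eval (ez t)‖
      ‖(M * diagonal (ind ℂ O)).charpoly.eval (ez t)‖) ∂mu ≤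
        ∑ j ∈ O, Real.log (1 + Real.sqrt (μ j)) := by
  have h := height_bound M μ hM O hO hO' O le_rfl
    (fun j => if j ∈ O then (((Real.sqrt (μ j))⁻¹ : ℝ) : ℂ) else 1) ?_ ?_
  · have h1 : e1 O (fun j => if j ∈ O then (((Real.sqrt (μ j))⁻¹ : ℝ) : ℂ) else 1) =
        fun _ => 1 := by
      ext i
      by_cases hi : i ∈ O <;> simp [e1, hi]
    have h0 : e0 O (fun j => if j ∈ O then (((Real.sqrt (μ j))⁻¹ : ℝ) : ℂ) else 1) =
        ind ℂ O := by
      ext i
      by_cases hi : i ∈ O <;> simp [e0, ind, hi]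
    rw [h1, h0] at h
    have h2 : (diagonal (fun _ => 1) : Matrix ι ι ℂ) = 1 := Matrix.diagonal_one
    simpa only [DD, h2, mul_one] using h
  · intro j hj
    simp only [if_pos hj]
    rw [Complex.norm_real, Real.norm_eq_abs, abs_of_nonneg (by positivity)]
  · intro j hj
    simp only [if_neg hj]

end

end Pool.Agent.U865.SV
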