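import Mathlib
import Pool.Agent.U865.SV.Det

/-!
# The integral partner of the characteristic polynomial of an integer matrix
-/

set_option autoImplicit false
set_option linter.unusedSectionVars false

namespace Pool.Agent.U865.SV

open MeasureTheory Polynomial Matrix
open scoped MatrixOrder
open Pool.Agent.H261R2.CM (ez D_norm_ez D_circleAverage D_continuous_ez D_ez_eq toC)

noncomputable section

variable {ι : Type*} [Fintype ι] [DecidableEq ι]

theorem weight_le (x : ℝ) (hx : 0 < x) (hx1 : x ≠ 1) :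
    Real.log |x * (x - 1)| + Real.log (1 + Real.sqrt x) ≤ 9 * Real.log (max 1 (Real.sqrt x)) := by
  set s := Real.sqrt x with hs
  have hs0 : 0 < s := Real.sqrt_pos.mpr hx
  have hxs : x = s ^ 2 := (Real.sq_sqrt hx.le).symm
  have hm : 1 ≤ max 1 s := le_max_left _ _
  have h1 : 0 < |x * (x - 1)| := abs_pos.mpr (mul_ne_zero hx.ne' (sub_ne_zero.mpr hx1))
  rw [← Real.log_mul h1.ne' (by positivity)]
  have h9 : (9:ℝ) * Real.log (max 1 s) = Real.log (max 1 s ^ 9) := by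
    rw [Real.log_pow]; norm_num
  rw [h9]
  refine Real.log_le_log (by positivity) ?_
  rcases le_total s 1 with h | h
  · rw [max_eq_left h, one_pow]
    have hx' : x ≤ 1 := by rw [hxs]; nlinarith
    rw [abs_of_nonpos (by nlinarith)]
    nlinarith [sq_nonneg (x - 1/2), mul_nonneg hx.le (sub_nonneg.mpr hx')]
  · rw [max_eq_right h]
    have hx' : 1 ≤ x := by rw [hxs]; nlinarith
    rw [abs_of_nonneg (by nlinarith)]
    -- 4 (x - 1) ≤ x ^ 3 with x = s ^ 2
    have h3 : 4 * (x - 1) ≤ x ^ 3 := by nlinarith [sq_nonneg (x - 1), sq_nonneg (x - 2)]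
    have h4 : 4 * (x * (x - 1)) ≤ x ^ 4 := by nlinarith
    have h5 : 1 + s ≤ 2 * s := by linarith
    have h6 : x ^ 4 = s ^ 8 := by rw [hxs]; ring
    have h7 : 0 ≤ x * (x - 1) := by nlinarith
    have h8 : x * (x - 1) * (1 + s) ≤ x * (x - 1) * (2 * s) :=
      mul_le_mul_of_nonneg_left h5 h7
    have h10 : x * (x - 1) * (2 * s) ≤ s ^ 8 / 4 * (2 * s) := by
      apply mul_le_mul_of_nonneg_right _ (by positivity)
      rw [← h6]; linarith
    have h11 : s ^ 8 / 4 * (2 * s) ≤ s ^ 9 := by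
      have : 0 < s ^ 9 := by positivity
      nlinarith
    linarith

/-- the integral partner -/
theorem partner_core (A B : Matrix ι ι ℤ) (Q Q' : Matrix ι ι ℂ) (hQ1 : Q' * Q = 1)
    (hQ2 : Q * Q' = 1) (μ : ι → ℝ) (hμ0 : ∀ j, 0 ≤ μ j)
    (hD : Q' * B.map (Int.castRingHom ℂ) * Q = diagonal (fun j => (μ j : ℂ)))
    (hM0 : (Q' * A.map (Int.castRingHom ℂ) * Q)ᴴ * (Q' * A.map (Int.castRingHom ℂ) * Q) =
      diagonal (fun j => (μ j : ℂ))) :
    ∃ G : ℤ[X], G ≠ 0 ∧ G.natDegree = Fintype.card ι ∧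
    (∀ z : ℂ, (toC G).eval z = 0 → ‖z‖ ≤ 1) ∧
    ∫ t, Real.log (max ‖(toC A.charpoly).eval (ez t)‖ ‖(toC G).eval (ez t)‖) ∂mu ≤
      9 * ∑ j, Real.log (max 1 (Real.sqrt (μ j))) := by
  set Ac : Matrix ι ι ℂ := A.map (Int.castRingHom ℂ) with hAc
  set Bc : Matrix ι ι ℂ := B.map (Int.castRingHom ℂ) with hBc
  set O : Finset ι := Finset.univ.filter (fun j => μ j ≠ 0 ∧ μ j ≠ 1) with hO
  have hO1 : ∀ j ∈ O, 0 < μ j ∧ μ j ≠ 1 := by
    intro j hj
    rw [hO, Finset.mem_filter] at hj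
    exact ⟨lt_of_le_of_ne (hμ0 j) (Ne.symm hj.2.1), hj.2.2⟩
  have hO2 : ∀ j, j ∉ O → μ j = 0 ∨ μ j = 1 := by
    intro j hj
    by_contra hcon
    push Not at hcon
    exact hj (by rw [hO, Finset.mem_filter]; exact ⟨Finset.mem_univ _, hcon⟩)
  have hO3 : ∀ j, j ∉ O → μ j ≤ 1 := by
    intro j hj
    rcases hO2 j hj with h | h <;> rw [h]; exact zero_le_one
  set w : ι → ℂ := fun j => (μ j : ℂ) * ((μ j : ℂ) - 1) with hw
  have hw0 : ∀ j, j ∉ O → w j = 0 := by
    intro j hj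
    rcases hO2 j hj with h | h <;> simp [hw, h]
  have hW : Q' * (B * B - B).map (Int.castRingHom ℂ) * Q = diagonal w := by
    have h1 : (B * B - B).map (Int.castRingHom ℂ) = Bc * Bc - Bc := by
      rw [Matrix.map_sub _ (map_sub _), Matrix.map_mul]
    rw [h1, Matrix.mul_sub, Matrix.sub_mul, hD]
    have h2 : Q' * (Bc * Bc) * Q = (Q' * Bc * Q) * (Q' * Bc * Q) := by
      calc Q' * (Bc * Bc) * Q
          = Q' * Bc * 1 * Bc * Q := by
            simp only [Matrix.mul_assoc, Matrix.one_mul]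
        _ = _ := by
            rw [← hQ2]
            simp only [Matrix.mul_assoc]
    rw [h2, hD, Matrix.diagonal_mul_diagonal, Matrix.diagonal_sub]
    congr 1
    ext j
    simp only [hw]
    ring
  set M : Matrix ι ι ℂ := Q' * Ac * Q with hMdef
  have hM : Mᴴ * M = diagonal (fun j => (μ j : ℂ)) := hM0
  obtain ⟨G, hG⟩ := integral_coeff (Int.castRingHom ℂ) A (B * B - B) Q Q' hQ1 w hW O hw0
  rw [← hAc, ← hMdef] at hG
  set p : ℂ := ∏ j ∈ O, w j with hp
  have hwne : ∀ j ∈ O, w j ≠ 0 := by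
    intro j hj
    obtain ⟨h1, h2⟩ := hO1 j hj
    simp only [hw]
    apply mul_ne_zero
    · exact_mod_cast h1.ne'
    · rw [sub_ne_zero]; exact_mod_cast h2
  have hp0 : p ≠ 0 := Finset.prod_ne_zero_iff.mpr hwne
  set χ : ℂ[X] := (M * diagonal (ind ℂ O)).charpoly with hχ
  have hχm : χ.Monic := charpoly_monic _
  have hGC : toC G = C p * χ := hG
  have hG0 : G ≠ 0 := by
    rintro rfl
    have h1 : (0 : ℂ[X]) = C p * χ := by
      rw [← hGC]
      simp [toC]
    exact mul_ne_zero (C_ne_zero.mpr hp0) hχm.ne_zero h1.symm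
  have hinj : Function.Injective (Int.castRingHom ℂ) := RingHom.injective_int _
  have hdeg : G.natDegree = Fintype.card ι := by
    have h1 : (toC G).natDegree = G.natDegree := natDegree_map_eq_of_injective hinj G
    rw [← h1, hGC, natDegree_C_mul hp0, hχ, charpoly_natDegree_eq_dim]
  have hlead : ((G.leadingCoeff : ℤ) : ℂ) = p := by
    have h1 : (toC G).leadingCoeff = p := by
      rw [hGC, leadingCoeff_mul, leadingCoeff_C, hχm.leadingCoeff, mul_one]
    rw [← h1]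
    exact (leadingCoeff_map_of_injective hinj G).symm
  have hp1 : 1 ≤ ‖p‖ := by
    rw [← hlead, Complex.norm_intCast]
    have h2 : G.leadingCoeff ≠ 0 := leadingCoeff_ne_zero.mpr hG0
    exact_mod_cast Int.one_le_abs h2
  refine ⟨G, hG0, hdeg, ?_, ?_⟩
  · intro z hz
    rw [hGC, eval_mul, eval_C, mul_eq_zero] at hz
    refine roots_le_one M μ hM (ind ℂ O) (fun j => ?_) z (hz.resolve_left hp0)
    by_cases hj : j ∈ O
    · simp [ind, hj]
    · simpa [ind, hj] using hO3 j hj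
  · have hf : toC A.charpoly = M.charpoly := by
      unfold toC
      rw [← charpoly_map, ← hAc, hMdef, charpoly_mul_comm, ← Matrix.mul_assoc, hQ2,
        Matrix.one_mul]
    have hb := height_pair M μ hM O (fun j hj => (hO1 j hj).1) hO3
    rw [← hχ] at hb
    have hχne := poly_ae_ne χ hχm.ne_zero
    have hbdd : ∀ P : ℂ[X], ∃ K : ℝ, ∀ t : ℝ, ‖P.eval (ez t)‖ ≤ K := by
      intro P
      obtain ⟨K0, hK0⟩ := (isCompact_closedBall (0:ℂ) 1).exists_bound_of_continuousOn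
        P.continuous.continuousOn
      exact ⟨K0, fun t => hK0 _ (by simp [D_norm_ez])⟩
    have hcont : ∀ P : ℂ[X], AEStronglyMeasurable (fun t => ‖P.eval (ez t)‖) mu := fun P =>
      (P.continuous.comp D_continuous_ez).norm.stronglyMeasurable.aestronglyMeasurable
    have hint : ∀ P R : ℂ[X], R ≠ 0 → Integrable (fun t =>
        Real.log (max ‖P.eval (ez t)‖ ‖R.eval (ez t)‖)) mu := by
      intro P R hR
      obtain ⟨K1, hK1⟩ := hbdd P
      obtain ⟨K2, hK2⟩ := hbdd R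
      refine integrable_log_max (hcont P) (hcont R) (C := max K1 K2)
        (fun t => (hK1 t).trans (le_max_left _ _)) (fun t => (hK2 t).trans (le_max_right _ _)) ?_
        (poly_integrable R)
      filter_upwards [poly_ae_ne R hR] with t ht
      exact norm_pos_iff.mpr ht
    have hGC0 : toC G ≠ 0 := by
      rw [hGC]; exact mul_ne_zero (C_ne_zero.mpr hp0) hχm.ne_zero
    have h1 : ∫ t, Real.log (max ‖(toC A.charpoly).eval (ez t)‖ ‖(toC G).eval (ez t)‖) ∂mu ≤
        Real.log ‖p‖ + ∫ t, Real.log (max ‖M.charpoly.eval (ez t)‖ ‖χ.eval (ez t)‖) ∂mu := by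
      have h2 : Real.log ‖p‖ + ∫ t, Real.log (max ‖M.charpoly.eval (ez t)‖ ‖χ.eval (ez t)‖) ∂mu =
          ∫ t, (Real.log ‖p‖ +
            Real.log (max ‖M.charpoly.eval (ez t)‖ ‖χ.eval (ez t)‖)) ∂mu := by
        rw [integral_add (integrable_const _) (hint _ _ hχm.ne_zero)]
        simp only [integral_const, probReal_univ, one_smul]
      rw [h2]
      refine integral_mono_ae (hint _ _ hGC0)
        ((integrable_const _).add (hint _ _ hχm.ne_zero)) ?_
      filter_upwards [hχne] with t ht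
      have h3 : 0 < ‖χ.eval (ez t)‖ := norm_pos_iff.mpr ht
      have h4 : 0 < max ‖M.charpoly.eval (ez t)‖ ‖χ.eval (ez t)‖ :=
        lt_of_lt_of_le h3 (le_max_right _ _)
      rw [hf, hGC, eval_mul, eval_C, norm_mul, ← Real.log_mul (by positivity) h4.ne']
      refine Real.log_le_log (lt_of_lt_of_le (by positivity) (le_max_right _ _)) (max_le ?_ ?_)
      · refine (le_max_left _ ‖χ.eval (ez t)‖).trans ?_
        exact le_mul_of_one_le_left h4.le hp1
      · exact mul_le_mul_of_nonneg_left (le_max_right _ _) (norm_nonneg _)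
    have h5 : Real.log ‖p‖ = ∑ j ∈ O, Real.log |μ j * (μ j - 1)| := by
      rw [hp, norm_prod, Real.log_prod (fun j hj => (norm_pos_iff.mpr (hwne j hj)).ne')]
      refine Finset.sum_congr rfl fun j _ => ?_
      congr 1
      simp only [hw]
      have : (μ j : ℂ) * ((μ j : ℂ) - 1) = ((μ j * (μ j - 1) : ℝ) : ℂ) := by push_cast; ring
      rw [this, Complex.norm_real, Real.norm_eq_abs]
    have h6 : ∑ j ∈ O, Real.log |μ j * (μ j - 1)| + ∑ j ∈ O, Real.log (1 + Real.sqrt (μ j)) ≤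
        9 * ∑ j, Real.log (max 1 (Real.sqrt (μ j))) := by
      rw [← Finset.sum_add_distrib]
      rw [Finset.mul_sum]
      calc ∑ j ∈ O, (Real.log |μ j * (μ j - 1)| + Real.log (1 + Real.sqrt (μ j)))
          ≤ ∑ j ∈ O, 9 * Real.log (max 1 (Real.sqrt (μ j))) :=
            Finset.sum_le_sum fun j hj => weight_le _ (hO1 j hj).1 (hO1 j hj).2
        _ ≤ ∑ j, 9 * Real.log (max 1 (Real.sqrt (μ j))) :=
            Finset.sum_le_sum_of_subset_of_nonneg (Finset.subset_univ _) fun j _ _ =>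
              mul_nonneg (by norm_num) (Real.log_nonneg (le_max_left _ _))
    linarith

/-- the product `A^* A` for some inner product -/
def IsAdjProd (A B : Matrix ι ι ℤ) : Prop :=
  ∃ H : Matrix ι ι ℝ, H.PosDef ∧
    H * B.map (Int.cast : ℤ → ℝ) = (A.map (Int.cast : ℤ → ℝ))ᵀ * H * A.map (Int.cast : ℤ → ℝ)

theorem isAdjProd_transpose (A : Matrix ι ι ℤ) : IsAdjProd A (Aᵀ * A) := by
  refine ⟨1, Matrix.PosDef.one, ?_⟩
  rw [Matrix.one_mul, Matrix.mul_one]
  have h : (Aᵀ * A).map (Int.castRingHom ℝ) =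
      Aᵀ.map (Int.castRingHom ℝ) * A.map (Int.castRingHom ℝ) := Matrix.map_mul
  exact h

theorem exists_basis {A B : Matrix ι ι ℤ} (h : IsAdjProd A B) :
    ∃ (Q Q' : Matrix ι ι ℂ) (μ : ι → ℝ), Q' * Q = 1 ∧ Q * Q' = 1 ∧ (∀ j, 0 ≤ μ j) ∧
    (Q' * B.map (Int.castRingHom ℂ) * Q = diagonal (fun j => (μ j : ℂ))) ∧
    (Q' * A.map (Int.castRingHom ℂ) * Q)ᴴ * (Q' * A.map (Int.castRingHom ℂ) * Q) =
      diagonal (fun j => (μ j : ℂ)) := by
  obtain ⟨H, hH, hHB⟩ := h
  set Ar : Matrix ι ι ℝ := A.map (Int.cast : ℤ → ℝ) with hAr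
  set Br : Matrix ι ι ℝ := B.map (Int.cast : ℤ → ℝ) with hBr
  obtain ⟨R, hR⟩ := CStarAlgebra.nonneg_iff_eq_star_mul_self.mp hH.posSemidef.nonneg
  rw [Matrix.star_eq_conjTranspose, Matrix.conjTranspose_eq_transpose_of_trivial] at hR
  have hRu : IsUnit R.det := by
    have h1 : IsUnit H.det := (Matrix.isUnit_iff_isUnit_det _).mp hH.isUnit
    rw [hR, Matrix.det_mul] at h1
    exact isUnit_of_mul_isUnit_right h1
  have hR1 : R * R⁻¹ = 1 := Matrix.mul_nonsing_inv R hRu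
  have hR2 : R⁻¹ * R = 1 := Matrix.nonsing_inv_mul R hRu
  have hRt1 : (R⁻¹)ᵀ * Rᵀ = 1 := by rw [← Matrix.transpose_mul, hR1, Matrix.transpose_one]
  set N : Matrix ι ι ℝ := R * Ar * R⁻¹ with hN
  have hNN : Nᵀ * N = R * Br * R⁻¹ := by
    have h1 : Nᵀ = (R⁻¹)ᵀ * Arᵀ * Rᵀ := by
      rw [hN, Matrix.transpose_mul, Matrix.transpose_mul, Matrix.mul_assoc]
    rw [h1, hN]
    calc (R⁻¹)ᵀ * Arᵀ * Rᵀ * (R * Ar * R⁻¹)
        = (R⁻¹)ᵀ * (Arᵀ * (Rᵀ * R) * Ar) * R⁻¹ := by simp only [Matrix.mul_assoc]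
      _ = (R⁻¹)ᵀ * (Rᵀ * R * Br) * R⁻¹ := by rw [← hR, hHB]
      _ = ((R⁻¹)ᵀ * Rᵀ) * R * Br * R⁻¹ := by simp only [Matrix.mul_assoc]
      _ = R * Br * R⁻¹ := by rw [hRt1, Matrix.one_mul]
  have hherm : (Nᴴ * N).IsHermitian := isHermitian_conjTranspose_mul_self N
  set U : Matrix ι ι ℝ := (hherm.eigenvectorUnitary : Matrix ι ι ℝ) with hU
  have hU1 : star U * U = 1 := Unitary.coe_star_mul_self hherm.eigenvectorUnitary
  have hU2 : U * star U = 1 := Unitary.coe_mul_star_self hherm.eigenvectorUnitary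
  have hD : star U * (Nᴴ * N) * U = diagonal hherm.eigenvalues := by
    have h := hherm.conjStarAlgAut_star_eigenvectorUnitary
    rw [Unitary.conjStarAlgAut_star_apply] at h
    exact h
  have hNct : Nᴴ = Nᵀ := Matrix.conjTranspose_eq_transpose_of_trivial N
  have hUst : star U = Uᵀ := by
    rw [Matrix.star_eq_conjTranspose, Matrix.conjTranspose_eq_transpose_of_trivial]
  rw [hUst] at hU1 hU2 hD
  set P : Matrix ι ι ℝ := R⁻¹ * U with hP
  set P' : Matrix ι ι ℝ := Uᵀ * R with hP'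
  have e1 : P' * P = 1 := by
    calc P' * P = Uᵀ * (R * R⁻¹) * U := by rw [hP, hP']; simp only [Matrix.mul_assoc]
      _ = 1 := by rw [hR1, Matrix.mul_one, hU1]
  have e2 : P * P' = 1 := by
    calc P * P' = R⁻¹ * (U * Uᵀ) * R := by rw [hP, hP']; simp only [Matrix.mul_assoc]
      _ = 1 := by rw [hU2, Matrix.mul_one, hR2]
  have e3 : P' * Br * P = diagonal hherm.eigenvalues := by
    rw [← hD, hNct, hNN, hP, hP']
    simp only [Matrix.mul_assoc]
  have e4 : (P' * Ar * P)ᵀ * (P' * Ar * P) = diagonal hherm.eigenvalues := by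
    have h1 : P' * Ar * P = Uᵀ * N * U := by
      rw [hP, hP', hN]; simp only [Matrix.mul_assoc]
    rw [h1, ← hD, Matrix.transpose_mul, Matrix.transpose_mul, Matrix.transpose_transpose, hNct]
    calc Uᵀ * (Nᵀ * U) * (Uᵀ * N * U) = Uᵀ * Nᵀ * (U * Uᵀ) * N * U := by
          simp only [Matrix.mul_assoc]
      _ = Uᵀ * (Nᵀ * N) * U := by rw [hU2, Matrix.mul_one]; simp only [Matrix.mul_assoc]
  have hmapA : A.map (Int.castRingHom ℂ) = Ar.map Complex.ofRealHom := by
    ext i j; simp [hAr]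
  have hmapB : B.map (Int.castRingHom ℂ) = Br.map Complex.ofRealHom := by
    ext i j; simp [hBr]
  have hdiag : (diagonal (fun j => (hherm.eigenvalues j : ℂ)) : Matrix ι ι ℂ) =
      (diagonal hherm.eigenvalues).map Complex.ofRealHom := by
    rw [Matrix.diagonal_map (map_zero _)]
    rfl
  have hct : ∀ Z : Matrix ι ι ℝ, (Z.map Complex.ofRealHom)ᴴ = Zᵀ.map Complex.ofRealHom := by
    intro Z
    ext i j
    simp
  refine ⟨P.map Complex.ofRealHom, P'.map Complex.ofRealHom, hherm.eigenvalues, ?_, ?_, ?_,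
    ?_, ?_⟩
  · rw [← Matrix.map_mul, e1, Matrix.map_one _ (map_zero _) (map_one _)]
  · rw [← Matrix.map_mul, e2, Matrix.map_one _ (map_zero _) (map_one _)]
  · exact (posSemidef_conjTranspose_mul_self N).eigenvalues_nonneg
  · rw [hmapB, hdiag, ← e3, ← Matrix.map_mul, ← Matrix.map_mul]
  · rw [hmapA, hdiag, ← e4, ← Matrix.map_mul, ← Matrix.map_mul, hct, ← Matrix.map_mul]

/-- the Mahler measure of the characteristic polynomial of `A^* A` -/
theorem log_measure (B : Matrix ι ι ℤ) (Q Q' : Matrix ι ι ℂ)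
    (hQ2 : Q * Q' = 1) (μ : ι → ℝ) (hμ0 : ∀ j, 0 ≤ μ j)
    (hD : Q' * B.map (Int.castRingHom ℂ) * Q = diagonal (fun j => (μ j : ℂ))) :
    Real.log ((toC B.charpoly).mahlerMeasure) = 2 * ∑ j, Real.log (max 1 (Real.sqrt (μ j))) := by
  have h1 : toC B.charpoly = ∏ j, (X - C (μ j : ℂ)) := by
    unfold toC
    rw [← charpoly_map, ← charpoly_diagonal, ← hD, charpoly_mul_comm, ← Matrix.mul_assoc, hQ2,
      Matrix.one_mul]
  have h2 : (∏ j, (X - C (μ j : ℂ))).mahlerMeasure = ∏ j, max 1 (μ j) := by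
    have h3 := prod_mahlerMeasure_eq_mahlerMeasure_prod
      (Finset.univ.val.map (fun j : ι => (X - C (μ j : ℂ))))
    rw [Multiset.map_map] at h3
    have h4 : (∏ j, (X - C (μ j : ℂ))) =
      (Finset.univ.val.map (fun j : ι => (X - C (μ j : ℂ)))).prod := rfl
    rw [h4, h3]
    have h5 : ∏ j, max 1 (μ j) = (Finset.univ.val.map (fun j : ι => max 1 (μ j))).prod := rfl
    rw [h5]
    congr 1
    refine Multiset.map_congr rfl fun j _ => ?_
    simp only [Function.comp_apply]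
    rw [mahlerMeasure_X_sub_C, Complex.norm_real, Real.norm_eq_abs, abs_of_nonneg (hμ0 j)]
  rw [h1, h2, Real.log_prod (fun j _ => (lt_of_lt_of_le one_pos (le_max_left _ _)).ne'),
    Finset.mul_sum]
  refine Finset.sum_congr rfl fun j _ => ?_
  have h6 : max 1 (μ j) = (max 1 (Real.sqrt (μ j))) ^ 2 := by
    rcases le_total (μ j) 1 with h | h
    · rw [max_eq_left h, max_eq_left (Real.sqrt_le_one.mpr h), one_pow]
    · rw [max_eq_right h, max_eq_right (Real.one_le_sqrt.mpr h), Real.sq_sqrt (hμ0 j)]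
  rw [h6, Real.log_pow]
  norm_num

theorem exists_partner (A B : Matrix ι ι ℤ) (h : IsAdjProd A B) :
    ∃ G : ℤ[X], G ≠ 0 ∧ G.natDegree = Fintype.card ι ∧
    (∀ z : ℂ, (toC G).eval z = 0 → ‖z‖ ≤ 1) ∧
    ∫ t, Real.log (max ‖(toC A.charpoly).eval (ez t)‖ ‖(toC G).eval (ez t)‖) ∂mu ≤
      9 / 2 * Real.log ((toC B.charpoly).mahlerMeasure) := by
  obtain ⟨Q, Q', μ, h1, h2, h3, h4, h5⟩ := exists_basis h
  obtain ⟨G, g1, g2, g3, g4⟩ := partner_core A B Q Q' h1 h2 μ h3 h4 h5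
  refine ⟨G, g1, g2, g3, ?_⟩
  rw [log_measure B Q Q' h2 μ h3 h4]
  linarith

end

end Pool.Agent.U865.SV
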