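import Mathlib
import Pool.Agent.U865.SV.Main
import Pool.Agent.R328.PH
import Pool.Agent.W242.IM.Final2

/-!
# The lower bounds and the closure
-/

set_option autoImplicit false
set_option linter.unusedSectionVars false

namespace Pool.Agent.U865.SV

open MeasureTheory Polynomial Matrix
open Pool.Agent.H261R2.CM
open Pool.Agent.H388SL (MM)

noncomputable section

/-- the Mahler measure of the characteristic polynomial of an integer matrix -/
def cM {n : ℕ} (A : Matrix (Fin n) (Fin n) ℤ) : ℝ :=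
  (A.charpoly.map (Int.castRingHom ℂ)).mahlerMeasure

theorem cM_eq {n : ℕ} (A : Matrix (Fin n) (Fin n) ℤ) : cM A = m1 A.charpoly := rfl

theorem not_dvd {f G : ℤ[X]} (hf : f.Monic) (hG : G ≠ 0)
    (h : ∀ z : ℂ, (toC G).eval z = 0 → ‖z‖ ≤ 1) (hM : 1 < m1 f) : ¬ f ∣ G := by
  rintro ⟨g, rfl⟩
  have h1 : m1 f = 1 := by
    refine logMahler_zero (hf.map _) fun r hr => h r ?_
    have h2 : toC (f * g) = toC f * toC g := Polynomial.map_mul _
    rw [h2, eval_mul]
    have h3 : (toC f).eval r = 0 := hr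
    rw [h3, zero_mul]
  linarith

/-- Dobrowolski type bound -/
theorem dob : ∃ c : ℝ, 0 < c ∧ ∀ (n : ℕ) (A B : Matrix (Fin n) (Fin n) ℤ) (D : ℝ), 0 ≤ D →
    IsAdjProd A B → cM B ≤ Real.exp D * cM A ^ 2 → Irreducible A.charpoly → 1 < cM A →
    c / (1 + D) ^ 3 ≤ Real.log (cM A) := by
  obtain ⟨c, hc, h⟩ := Pool.Agent.R328.pair_main
  refine ⟨min 1 (c / 8000), lt_min one_pos (by positivity), ?_⟩
  intro n A B D hD hAB hB hirr hM
  have hD1 : 0 < (1 + D) ^ 3 := by positivity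
  by_cases hbig : 1 ≤ Real.log (cM A)
  · refine le_trans ?_ hbig
    rw [div_le_one hD1]
    exact (min_le_left _ _).trans (one_le_pow₀ (by linarith))
  push Not at hbig
  obtain ⟨G, hG0, hdeg, hroot, hint⟩ := exists_partner A B hAB
  have hmon : A.charpoly.Monic := charpoly_monic A
  have hnd : ¬ A.charpoly ∣ G := not_dvd hmon hG0 hroot hM
  have h1 := h A.charpoly G 1 one_pos hirr hnd hM
  have hM0 : 0 < cM A := by linarith
  have hlogB : Real.log ((toC B.charpoly).mahlerMeasure) ≤ D + 2 := by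
    have h2 : cM B ≤ Real.exp (D + 2) := by
      refine hB.trans ?_
      rw [Real.exp_add]
      apply mul_le_mul_of_nonneg_left _ (Real.exp_pos _).le
      have h3 : cM A ≤ Real.exp 1 := by
        rw [← Real.exp_log hM0]
        exact Real.exp_le_exp.mpr hbig.le
      calc cM A ^ 2 ≤ (Real.exp 1) ^ 2 := pow_le_pow_left₀ hM0.le h3 2
        _ = Real.exp 2 := by rw [← Real.exp_nat_mul]; norm_num
    have h4 : 0 < cM B := by
      rw [cM_eq]
      exact lt_of_lt_of_le one_pos (I1_one_le_m1 (charpoly_monic B).ne_zero)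
    have h5 := Real.log_le_log h4 h2
    rw [Real.log_exp] at h5
    exact h5
  have hav : Real.circleAverage (Pool.Agent.R328.PM A.charpoly G 1) 0 1 ≤ 9 * (1 + D) := by
    rw [avg_eq]
    have h2 : (fun t => Pool.Agent.R328.PM A.charpoly G 1 (ez t)) =
        fun t => Real.log (max ‖(toC A.charpoly).eval (ez t)‖ ‖(toC G).eval (ez t)‖) := by
      funext t
      unfold Pool.Agent.R328.PM toC
      rw [pow_one, eval_map, eval_map]
      rfl
    rw [h2]
    linarith
  have hnn := Pool.Agent.R328.PM_nonneg hirr.ne_zero (show 1 ≤ MM A.charpoly from hM.le) G 1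
  set Av := Real.circleAverage (Pool.Agent.R328.PM A.charpoly G 1) 0 1
  have hdA : A.charpoly.natDegree = n := by
    rw [charpoly_natDegree_eq_dim, Fintype.card_fin]
  have hdG : G.natDegree = n := by rw [hdeg, Fintype.card_fin]
  rw [hdG, hdA] at h1
  have hratio : (n : ℝ) / (((1 : ℕ) : ℝ) * n) ≤ 1 := by
    rw [Nat.cast_one, one_mul]
    exact div_self_le_one _
  have hratio0 : 0 ≤ (n : ℝ) / (((1 : ℕ) : ℝ) * n) := by positivity
  have hW : (1 + (n : ℝ) / (((1 : ℕ) : ℝ) * n)) * (1 + Av / ((1 : ℕ) : ℝ)) ≤ 20 * (1 + D) := by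
    rw [Nat.cast_one, div_one] at *
    have h6 : 1 + Av ≤ 10 * (1 + D) := by linarith
    nlinarith
  have hW0 : 0 < (1 + (n : ℝ) / (((1 : ℕ) : ℝ) * n)) * (1 + Av / ((1 : ℕ) : ℝ)) := by positivity
  refine le_trans ?_ h1
  calc min 1 (c / 8000) / (1 + D) ^ 3 ≤ (c / 8000) / (1 + D) ^ 3 := by
        gcongr
        exact min_le_right _ _
    _ = c / (20 * (1 + D)) ^ 3 := by
        field_simp
        ring
    _ ≤ _ := by
        gcongr

theorem cM_pos {n : ℕ} (A : Matrix (Fin n) (Fin n) ℤ) : 1 ≤ cM A := by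
  rw [cM_eq]
  exact I1_one_le_m1 (charpoly_monic A).ne_zero

/-- coprime pairs -/
theorem coprime_pair {n : ℕ} (A B : Matrix (Fin n) (Fin n) ℤ) (h : IsAdjProd A B) :
    ∃ F G : ℤ[X], F ≠ 0 ∧ G ≠ 0 ∧ IsRelPrime F G ∧ m1 F = cM A ∧
      mx1 F G ≤ 9 / 2 * Real.log (cM B) := by
  obtain ⟨G, hG0, hdeg, hroot, hint⟩ := exists_partner A B h
  have hmon : A.charpoly.Monic := charpoly_monic A
  obtain ⟨a, b, d, hab, ha, hb⟩ :=
    UniqueFactorizationMonoid.exists_reduced_factors A.charpoly hmon.ne_zero G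
  have hd0 : d ≠ 0 := by
    rintro rfl
    exact hmon.ne_zero (by rw [← ha, zero_mul])
  have ha0 : a ≠ 0 := by
    rintro rfl
    exact hmon.ne_zero (by rw [← ha, mul_zero])
  have hb0 : b ≠ 0 := by
    rintro rfl
    exact hG0 (by rw [← hb, mul_zero])
  have hu : d.leadingCoeff * a.leadingCoeff = 1 := by
    rw [← leadingCoeff_mul, ha]
    exact hmon
  have hdn : ‖(toC d).leadingCoeff‖ = 1 := by
    have h1 : (toC d).leadingCoeff = ((d.leadingCoeff : ℤ) : ℂ) :=
      leadingCoeff_map_of_injective (RingHom.injective_int _) d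
    rw [h1]
    rcases Int.isUnit_iff.mp (isUnit_iff_exists_inv.mpr ⟨_, hu⟩) with h2 | h2 <;> rw [h2] <;> simp
  have hmd : m1 d = 1 := by
    unfold m1
    rw [mahlerMeasure_eq_leadingCoeff_mul_prod_roots, hdn, one_mul]
    refine Multiset.prod_eq_one fun x hx => ?_
    rw [Multiset.mem_map] at hx
    obtain ⟨r, hr, rfl⟩ := hx
    have hr2 : (toC d).eval r = 0 := by
      have := (mem_roots (D_toC_ne d hd0)).mp hr
      exact this
    refine max_eq_left (hroot r ?_)
    rw [← hb]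
    have h2 : toC (d * b) = toC d * toC b := Polynomial.map_mul _
    rw [h2, eval_mul, hr2, zero_mul]
  refine ⟨a, b, ha0, hb0, hab, ?_, ?_⟩
  · rw [cM_eq, ← ha, I1_m1_mul, hmd, one_mul]
  · have h1 := mx1_mul d a b hd0 ha0
    rw [hmd, Real.log_one, zero_add, ha, hb] at h1
    rw [← h1]
    have h2 : mx1 A.charpoly G =
        ∫ t, Real.log (max ‖(toC A.charpoly).eval (ez t)‖ ‖(toC G).eval (ez t)‖) ∂mu := by
      unfold mx1
      rw [intervalIntegral.integral_of_le zero_le_one]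
      rfl
    rw [h2]
    exact hint

/-- the gap -/
theorem gap (κ : ℝ → ℝ) (hκ : Monotone κ) : ∃ μ : ℝ, 1 < μ ∧
    ∀ (n : ℕ) (A B : Matrix (Fin n) (Fin n) ℤ),
    IsAdjProd A B → cM B ≤ κ (cM A) → cM A = 1 ∨ μ ≤ cM A := by
  obtain ⟨c, hc, h⟩ := gap_one (9 / 2 * Real.log (max (κ 2) 1))
  refine ⟨min 2 c, lt_min one_lt_two hc, ?_⟩
  intro n A B hAB hB
  by_cases hbig : 2 ≤ cM A
  · exact Or.inr ((min_le_left _ _).trans hbig)
  push Not at hbig
  obtain ⟨F, G, hF, hG, hFG, h1, h2⟩ := coprime_pair A B hAB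
  have h3 : cM B ≤ max (κ 2) 1 := (hB.trans (hκ hbig.le)).trans (le_max_left _ _)
  have h4 : mx1 F G ≤ 9 / 2 * Real.log (max (κ 2) 1) := by
    refine h2.trans ?_
    have := Real.log_le_log (lt_of_lt_of_le one_pos (cM_pos B)) h3
    linarith
  rcases h F G hF hG hFG h4 with h5 | h5
  · left; rw [← h1]; exact h5
  · right; rw [← h1]; exact (min_le_right _ _).trans h5

/-- the measures of the integer matrices whose departure from normality is controlled -/
def TT (κ : ℝ → ℝ) : Set ℝ := {x : ℝ | ∃ (n : ℕ) (A B : Matrix (Fin n) (Fin n) ℤ),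
    IsAdjProd A B ∧ cM B ≤ κ (cM A) ∧ x = cM A}

theorem TT_LL (κ : ℝ → ℝ) (hκ : Monotone κ) (B : ℝ) : ∃ K : ℝ, TT κ ∩ Set.Iio B ⊆ LL K := by
  refine ⟨9 / 2 * Real.log (max (κ B) 1), ?_⟩
  rintro x ⟨⟨n, A, A', hAB, hB, rfl⟩, hx⟩
  obtain ⟨F, G, hF, hG, hFG, h1, h2⟩ := coprime_pair A A' hAB
  rw [← h1]
  refine Pool.Agent.W242.IM.m1_mem_LL F G hF hG hFG _ (h2.trans ?_)
  have h8 : cM A < B := hx
  have h3 : cM A' ≤ max (κ B) 1 := (hB.trans (hκ h8.le)).trans (le_max_left _ _)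
  have := Real.log_le_log (lt_of_lt_of_le one_pos (cM_pos A')) h3
  linarith

end

end Pool.Agent.U865.SV
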